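import Mathlib

/-!
# The independence number, even distances and local independence
-/

set_option autoImplicit false

open Finset

namespace Pool.Agent.Results.MP_c843e9_co.EvenDistances

variable {V : Type*} [Fintype V]

/-- `D_even(v)`: the number of vertices at even distance from `v`. -/
noncomputable def dEven (G : SimpleGraph V) (v : V) : ℕ := by
  classical
  exact (univ.filter fun u => Even (G.dist u v)).card

/-- `λ(v)`: the independence number of the subgraph induced on the neighbourhood of `v`. -/
noncomputable def lam (G : SimpleGraph V) (v : V) : ℕ := (G.induce (G.neighborSet v)).indepNum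

/-- `δ_even(G)`: the minimum of `D_even(v)` over all vertices. -/
noncomputable def deltaEven (G : SimpleGraph V) : ℕ := ⨅ v, dEven G v

/-- `Λ(G)`: the maximum of `λ(v)` over all vertices. -/
noncomputable def Lam (G : SimpleGraph V) : ℕ := univ.sup (lam G)

theorem card_le_lam (G : SimpleGraph V) (u : V) (C : Finset V) (hC : ∀ w ∈ C, G.Adj u w)
    (hI : ∀ a ∈ C, ∀ b ∈ C, ¬ G.Adj a b) : C.card ≤ lam G u := by
  classical
  have h1 : (C.subtype (· ∈ G.neighborSet u)).card = C.card := by
    rw [card_subtype]
    congr 1
    apply filter_true_of_mem
    intro w hw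
    exact hC w hw
  rw [← h1]
  apply SimpleGraph.IsIndepSet.card_le_indepNum
  intro a ha b hb _
  rw [mem_coe, mem_subtype] at ha hb
  rw [SimpleGraph.comap_adj]
  exact hI _ ha _ hb

theorem lam_le_Lam (G : SimpleGraph V) (u : V) : lam G u ≤ Lam G :=
  le_sup (f := lam G) (mem_univ u)

omit [Fintype V] in
theorem exists_parent (G : SimpleGraph V) (hG : G.Connected) (v u : V) (h : G.dist v u ≠ 0) :
    ∃ q, G.Adj u q ∧ G.dist v q + 1 = G.dist v u := by
  obtain ⟨p, hp⟩ := hG.exists_walk_length_eq_dist u v
  rw [SimpleGraph.dist_comm] at hp
  cases p with
  | nil => exact absurd (SimpleGraph.dist_self) h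
  | cons hadj p =>
    rename_i q
    refine ⟨q, hadj, ?_⟩
    rw [SimpleGraph.Walk.length_cons] at hp
    have h1 : G.dist v q ≤ p.length := by
      rw [SimpleGraph.dist_comm]
      exact SimpleGraph.dist_le p
    have h2 : G.dist v u ≤ G.dist v q + G.dist q u := hG.dist_triangle
    have h3 : G.dist q u = 1 := SimpleGraph.dist_eq_one_iff_adj.2 hadj.symm
    omega

theorem main (G : SimpleGraph V) (hG : G.Connected) (v : V) (I : Finset V)
    (hI : ∀ a ∈ I, ∀ b ∈ I, ¬ G.Adj a b) : I.card ≤ 1 + dEven G v * (Lam G - 1) := by
  classical
  by_cases hL : Lam G ≤ 1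
  · -- the graph is complete
    have hcard : I.card ≤ 1 := by
      rw [card_le_one]
      intro a ha b hb
      by_contra hab
      have hd0 : G.dist a b ≠ 0 := by
        intro h0
        exact hab (hG.dist_eq_zero_iff.1 h0)
      obtain ⟨q, hq, hqd⟩ := exists_parent G hG a b hd0
      have hd1 : G.dist a q ≠ 0 := by
        intro h0
        rw [hG.dist_eq_zero_iff] at h0
        subst h0
        exact hI _ hb _ ha hq
      obtain ⟨r, hr, hrd⟩ := exists_parent G hG a q hd1
      -- `b` and `r` are two non-adjacent neighbours of `q`
      have hbr : b ≠ r := by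
        rintro rfl
        omega
      have hnadj : ¬ G.Adj b r := by
        intro h
        have h2 : G.dist a b ≤ G.dist a r + G.dist r b := hG.dist_triangle
        have h3 : G.dist r b = 1 := SimpleGraph.dist_eq_one_iff_adj.2 h.symm
        omega
      have h2 : ({b, r} : Finset V).card ≤ lam G q := by
        apply card_le_lam
        · intro w hw
          rw [mem_insert, mem_singleton] at hw
          rcases hw with rfl | rfl
          · exact hq.symm
          · exact hr
        · intro x hx y hy
          rw [mem_insert, mem_singleton] at hx hy
          rcases hx with rfl | rfl <;> rcases hy with rfl | rfl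
          · exact G.loopless.irrefl _
          · exact hnadj
          · exact fun h => hnadj h.symm
          · exact G.loopless.irrefl _
      rw [card_pair hbr] at h2
      have := lam_le_Lam G q
      omega
    omega
  · push Not at hL
    -- parents
    have hpar : ∀ u, ∃ q, G.dist v u ≠ 0 → (G.Adj u q ∧ G.dist v q + 1 = G.dist v u) := by
      intro u
      by_cases h : G.dist v u ≠ 0
      · obtain ⟨q, hq⟩ := exists_parent G hG v u h
        exact ⟨q, fun _ => hq⟩
      · exact ⟨u, fun h' => absurd h' h⟩
    choose p hp using hpar
    set E : Finset V := univ.filter fun u => Even (G.dist u v) with hE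
    have hmemE : ∀ u, u ∈ E ↔ Even (G.dist v u) := by
      intro u
      rw [hE, mem_filter, SimpleGraph.dist_comm]
      exact ⟨fun h => h.2, fun h => ⟨mem_univ _, h⟩⟩
    -- assign every vertex of `I` to a vertex of `E`
    set g : V → V := fun w => if Even (G.dist v w) then w else p w with hg
    have hgE : Set.MapsTo g (I : Set V) (E : Set V) := by
      intro w _
      rw [mem_coe, hmemE]
      by_cases hw : Even (G.dist v w)
      · simp only [hg, hw, if_true]
      · simp only [hg, hw, if_false]
        have h0 : G.dist v w ≠ 0 := by
          intro h0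
          rw [h0] at hw
          exact hw (by decide)
        have h1 := (hp w h0).2
        rw [← h1] at hw
        rw [Nat.even_add_one, not_not] at hw
        exact hw
    have hfib := card_eq_sum_card_fiberwise hgE
    have hvE : v ∈ E := by
      rw [hmemE, SimpleGraph.dist_self]
      decide
    -- the fibre of `u` consists of `u` or of neighbours of `u`
    have hcase : ∀ u ∈ E, ∀ w ∈ I.filter (fun a => g a = u), w ≠ u →
        G.Adj u w ∧ G.dist v w = G.dist v u + 1 := by
      intro u hu w hw hwu
      rw [mem_filter] at hw
      by_cases hev : Even (G.dist v w)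
      · have h2 := hw.2
        simp only [hg, hev, if_true] at h2
        exact absurd h2 hwu
      · have h2 := hw.2
        simp only [hg, hev, if_false] at h2
        have h0 : G.dist v w ≠ 0 := by
          intro h0
          rw [h0] at hev
          exact hev (by decide)
        have h1 := hp w h0
        rw [h2] at h1
        exact ⟨h1.1.symm, h1.2.symm⟩
    have hfibv : ∀ u ∈ E, (I.filter (fun a => g a = u)).card ≤ Lam G := by
      intro u hu
      by_cases huI : u ∈ I.filter (fun a => g a = u)
      · have : I.filter (fun a => g a = u) = {u} := by
          apply eq_singleton_iff_unique_mem.2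
          refine ⟨huI, ?_⟩
          intro w hw
          by_contra hwu
          exact hI _ (mem_filter.1 huI).1 _ (mem_filter.1 hw).1 (hcase u hu w hw hwu).1
        rw [this, card_singleton]
        omega
      · refine le_trans (card_le_lam G u _ ?_ ?_) (lam_le_Lam G u)
        · intro w hw
          exact (hcase u hu w hw (fun h => huI (h ▸ hw))).1
        · intro a ha b hb
          exact hI a (mem_filter.1 ha).1 b (mem_filter.1 hb).1
    have hfibu : ∀ u ∈ E, u ≠ v → (I.filter (fun a => g a = u)).card ≤ Lam G - 1 := by
      intro u hu huv
      by_cases huI : u ∈ I.filter (fun a => g a = u)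
      · have : I.filter (fun a => g a = u) = {u} := by
          apply eq_singleton_iff_unique_mem.2
          refine ⟨huI, ?_⟩
          intro w hw
          by_contra hwu
          exact hI _ (mem_filter.1 huI).1 _ (mem_filter.1 hw).1 (hcase u hu w hw hwu).1
        rw [this, card_singleton]
        omega
      · have h0 : G.dist v u ≠ 0 := by
          intro h0
          exact huv (hG.dist_eq_zero_iff.1 h0).symm
        have hq := hp u h0
        have hqn : p u ∉ I.filter (fun a => g a = u) := by
          intro hmem
          have := (hcase u hu _ hmem (fun h => by rw [h] at hq; omega)).2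
          omega
        have hqa : ∀ w ∈ I.filter (fun a => g a = u), ¬ G.Adj (p u) w := by
          intro w hw hadj
          have h1 := (hcase u hu w hw (fun h => huI (h ▸ hw))).2
          have h2 : G.dist v w ≤ G.dist v (p u) + G.dist (p u) w := hG.dist_triangle
          have h3 : G.dist (p u) w = 1 := SimpleGraph.dist_eq_one_iff_adj.2 hadj
          omega
        have h4 : (insert (p u) (I.filter (fun a => g a = u))).card ≤ lam G u := by
          apply card_le_lam
          · intro w hw
            rw [mem_insert] at hw
            rcases hw with rfl | hw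
            · exact hq.1
            · exact (hcase u hu w hw (fun h => huI (h ▸ hw))).1
          · intro a ha b hb
            rw [mem_insert] at ha hb
            rcases ha with rfl | ha <;> rcases hb with rfl | hb
            · exact G.loopless.irrefl _
            · exact hqa b hb
            · exact fun h => hqa a ha h.symm
            · exact hI a (mem_filter.1 ha).1 b (mem_filter.1 hb).1
        rw [card_insert_of_notMem hqn] at h4
        have := lam_le_Lam G u
        omega
    rw [hfib, ← add_sum_erase E _ hvE]
    have h5 : ∑ u ∈ E.erase v, (I.filter (fun a => g a = u)).card ≤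
        ∑ u ∈ E.erase v, (Lam G - 1) :=
      sum_le_sum fun u hu => hfibu u (mem_of_mem_erase hu) (ne_of_mem_erase hu)
    rw [sum_const, card_erase_of_mem hvE, smul_eq_mul] at h5
    have h6 := hfibv v hvE
    have h7 : dEven G v = E.card := by
      rw [hE]
      unfold dEven
      congr
    have h8 : 1 ≤ E.card := card_pos.2 ⟨v, hvE⟩
    rw [h7]
    obtain ⟨m, hm⟩ : ∃ m, E.card = m + 1 := ⟨E.card - 1, by omega⟩
    rw [hm] at h5 ⊢
    rw [Nat.add_sub_cancel] at h5
    rw [add_mul, one_mul]
    omega

/-- Every connected graph `G` (on at least two vertices) satisfies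
`α(G) ≤ 1 + δ_even(G) (Λ(G) - 1)`. -/
theorem result (V : Type*) [Fintype V] [Nontrivial V] (G : SimpleGraph V) (hG : G.Connected) :
    G.indepNum ≤ 1 + deltaEven G * (Lam G - 1) := by
  classical
  obtain ⟨I, hI⟩ := G.exists_isNIndepSet_indepNum
  have hne : (Set.range (dEven G)).Nonempty := Set.range_nonempty _
  obtain ⟨v, hv⟩ := Nat.sInf_mem hne
  have hv' : dEven G v = deltaEven G := hv
  rw [← hv', ← hI.card_eq]
  apply main G hG v I
  intro a ha b hb hab
  exact hI.isIndepSet (mem_coe.2 ha) (mem_coe.2 hb) hab.ne hab

end Pool.Agent.Results.MP_c843e9_co.EvenDistances
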